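import Pool.Graph.R_seed8.Helper656.SobCore

/-! The chain rule for continuous weakly differentiable functions, and products with test functions
whose gradient vanishes where the function does not. -/

set_option autoImplicit false

open MeasureTheory Set Filter Topology Metric
open scoped ENNReal ContDiff

namespace Pool.Agent.KS6_66.LM

open Pool.Agent.Helper656.Sob

theorem weak_const {n : ℕ} {Ω : Set (E n)} (l : Fin n) (c : ℝ) :
    IsWeakDeriv Ω l (fun _ => c) (fun _ => 0) := by
  intro φ hφ
  have h := integral_pd_mul l (φ := fun _ : E n => c) (ψ := φ) contDiff_const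
    (hφ.1.of_le (by simp)) hφ.2.1
  rw [h]
  congr 1
  refine integral_congr_ae (Filter.Eventually.of_forall fun x => ?_)
  simp [pd]

theorem weak_add {n : ℕ} {Ω : Set (E n)} (hΩ : IsOpen Ω) {u v wu wv : E n → ℝ} (l : Fin n)
    (hu : ContinuousOn u Ω) (hv : ContinuousOn v Ω) (hwu : LocallyIntegrableOn wu Ω)
    (hwv : LocallyIntegrableOn wv Ω) (h1 : IsWeakDeriv Ω l u wu)
    (h2 : IsWeakDeriv Ω l v wv) :
    IsWeakDeriv Ω l (fun x => u x + v x) (fun x => wu x + wv x) := by
  intro φ hφ
  have lcu : LocallyIntegrableOn u Ω := hu.locallyIntegrableOn hΩ.measurableSet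
  have lcv : LocallyIntegrableOn v Ω := hv.locallyIntegrableOn hΩ.measurableSet
  have i1 := sw_int hφ lcu (sw_pd_cont l hφ) (sw_pd_zero l hφ)
  have i2 := sw_int hφ lcv (sw_pd_cont l hφ) (sw_pd_zero l hφ)
  have hφ0 : ∀ x, x ∉ tsupport φ → φ x = 0 := fun x hx => image_eq_zero_of_notMem_tsupport hx
  have i3 := sw_int hφ hwu hφ.1.continuous hφ0
  have i4 := sw_int hφ hwv hφ.1.continuous hφ0
  simp only [add_mul]
  rw [integral_add i1 i2, integral_add i3 i4, h1 φ hφ, h2 φ hφ]
  ring

theorem weak_poly {n : ℕ} {Ω : Set (E n)} (hΩ : IsOpen Ω) {u w : E n → ℝ} (l : Fin n)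
    (hu : ContinuousOn u Ω) (hw : LocallyIntegrableOn w Ω) (h : IsWeakDeriv Ω l u w)
    (p : Polynomial ℝ) :
    IsWeakDeriv Ω l (fun x => p.eval (u x)) (fun x => p.derivative.eval (u x) * w x) := by
  have hc : ∀ p : Polynomial ℝ, ContinuousOn (fun x => p.eval (u x)) Ω := fun p =>
    p.continuous.comp_continuousOn hu
  have hl : ∀ p : Polynomial ℝ, LocallyIntegrableOn (fun x => p.eval (u x) * w x) Ω := fun p =>
    hw.continuousOn_mul (hc p) hΩ.isLocallyClosed
  induction p using Polynomial.induction_on with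
  | C a =>
    have := weak_const (Ω := Ω) l a
    intro φ hφ
    have h1 := this φ hφ
    simpa using h1
  | add p q hp hq =>
    have := weak_add hΩ l (hc p) (hc q) (hl p.derivative) (hl q.derivative) hp hq
    intro φ hφ
    have h1 := this φ hφ
    simp only [Polynomial.eval_add, Polynomial.derivative_add, add_mul] at h1 ⊢
    exact h1
  | monomial k a hk =>
    have := weak_mul hΩ l (hc (Polynomial.C a * Polynomial.X ^ k)) hu
      (hl (Polynomial.C a * Polynomial.X ^ k).derivative) hw hk h
    intro φ hφ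
    have h1 := this φ hφ
    have e1 : ∀ x, (Polynomial.C a * Polynomial.X ^ (k + 1)).eval (u x) =
        (Polynomial.C a * Polynomial.X ^ k).eval (u x) * u x := by
      intro x
      simp only [Polynomial.eval_mul, Polynomial.eval_C, Polynomial.eval_pow, Polynomial.eval_X]
      ring
    have e2 : ∀ x, (Polynomial.C a * Polynomial.X ^ (k + 1)).derivative.eval (u x) * w x =
        (Polynomial.C a * Polynomial.X ^ k).eval (u x) * w x +
          u x * ((Polynomial.C a * Polynomial.X ^ k).derivative.eval (u x) * w x) := by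
      intro x
      have : (Polynomial.C a * Polynomial.X ^ (k + 1) : Polynomial ℝ) =
          (Polynomial.C a * Polynomial.X ^ k) * Polynomial.X := by ring
      rw [this, Polynomial.derivative_mul, Polynomial.eval_add, Polynomial.eval_mul,
        Polynomial.eval_X, Polynomial.eval_mul, Polynomial.derivative_X, Polynomial.eval_one]
      ring
    simp only [e1, e2]
    exact h1

/-- Polynomial antiderivatives. -/
theorem exists_antideriv (p : Polynomial ℝ) : ∃ P : Polynomial ℝ, P.derivative = p := by
  induction p using Polynomial.induction_on' with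
  | add p q hp hq =>
    obtain ⟨P, rfl⟩ := hp
    obtain ⟨Q, rfl⟩ := hq
    exact ⟨P + Q, Polynomial.derivative_add⟩
  | monomial k a =>
    refine ⟨Polynomial.monomial (k + 1) (a / ((k : ℝ) + 1)), ?_⟩
    rw [Polynomial.derivative_monomial]
    simp only [Nat.add_sub_cancel]
    congr 1
    push_cast
    field_simp

/-- The chain rule. -/
theorem weak_chain {n : ℕ} {Ω : Set (E n)} (hΩ : IsOpen Ω) {u w : E n → ℝ} (l : Fin n)
    (hu : ContinuousOn u Ω) (hw : LocallyIntegrableOn w Ω) (h : IsWeakDeriv Ω l u w)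
    {g g' : ℝ → ℝ} (hg : ∀ t, HasDerivAt g (g' t) t) (hg' : Continuous g') :
    IsWeakDeriv Ω l (fun x => g (u x)) (fun x => g' (u x) * w x) := by
  have hgc : Continuous g := continuous_iff_continuousAt.2 fun t => (hg t).continuousAt
  intro φ hφ
  obtain ⟨M, hM⟩ : ∃ M : ℝ, ∀ x ∈ tsupport φ, |u x| ≤ M := by
    obtain ⟨M, hM⟩ := (hφ.2.1 : IsCompact (tsupport φ)).exists_bound_of_continuousOn
      (hu.mono hφ.2.2)
    exact ⟨M, fun x hx => by simpa using hM x hx⟩
  have hφ0 : ∀ x, x ∉ tsupport φ → φ x = 0 := fun x hx => image_eq_zero_of_notMem_tsupport hx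
  have hφp : ∀ x, x ∉ tsupport φ → pd l φ x = 0 := sw_pd_zero l hφ
  have iA : Integrable (fun x => |pd l φ x|) := by
    refine (Continuous.integrable_of_hasCompactSupport (sw_pd_cont l hφ) ?_).abs
    exact pd_hasCompactSupport l hφ.2.1
  have iB : Integrable (fun x => |w x * φ x|) := (sw_int hφ hw hφ.1.continuous hφ0).abs
  have i1 : Integrable (fun x => g (u x) * pd l φ x) :=
    sw_int hφ ((hgc.comp_continuousOn hu).locallyIntegrableOn hΩ.measurableSet)
      (sw_pd_cont l hφ) hφp
  have i2 : Integrable (fun x => g' (u x) * w x * φ x) :=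
    sw_int hφ (hw.continuousOn_mul (hg'.comp_continuousOn hu) hΩ.isLocallyClosed)
      hφ.1.continuous hφ0
  set A := ∫ x, |pd l φ x| with hA
  set B := ∫ x, |w x * φ x| with hB
  have hA0 : 0 ≤ A := integral_nonneg fun x => abs_nonneg _
  have hB0 : 0 ≤ B := integral_nonneg fun x => abs_nonneg _
  have hM0 : 0 ≤ |M| := abs_nonneg M
  have key : ∀ ε > 0, |(∫ x, g (u x) * pd l φ x) + ∫ x, g' (u x) * w x * φ x| ≤
      ε * (|M| * A + B) := by
    intro ε hε
    obtain ⟨p, hp⟩ := exists_polynomial_near_of_continuousOn (-|M|) |M| g' hg'.continuousOn ε hε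
    obtain ⟨P0, hP0⟩ := exists_antideriv p
    obtain ⟨P, hPd, hPz⟩ : ∃ P : Polynomial ℝ, P.derivative = p ∧ P.eval 0 = g 0 := by
      refine ⟨P0 + Polynomial.C (g 0 - P0.eval 0), ?_, ?_⟩
      · rw [Polynomial.derivative_add, hP0, Polynomial.derivative_C, add_zero]
      · rw [Polynomial.eval_add, Polynomial.eval_C]; ring
    have hPg : ∀ t ∈ Icc (-|M|) |M|, |g t - P.eval t| ≤ ε * |M| := by
      intro t ht
      have h1 := Convex.norm_image_sub_le_of_norm_hasDerivWithin_le
        (f := fun t => g t - P.eval t) (f' := fun t => g' t - p.eval t) (C := ε)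
        (s := Icc (-|M|) |M|) (x := 0) (y := t)
        (fun s hs => by
          have := (hg s).sub (P.hasDerivAt s)
          rw [hPd] at this
          exact this.hasDerivWithinAt)
        (fun s hs => by
          have := hp s hs
          rw [Real.norm_eq_abs, abs_sub_comm]
          exact this.le) (convex_Icc _ _) ⟨by linarith, hM0⟩ ht
      simp only [hPz, sub_self, sub_zero, Real.norm_eq_abs] at h1
      refine h1.trans (mul_le_mul_of_nonneg_left ?_ hε.le)
      exact abs_le.2 ht
    have h2 := weak_poly hΩ l hu hw h P φ hφ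
    rw [hPd] at h2
    have i3 : Integrable (fun x => P.eval (u x) * pd l φ x) :=
      sw_int hφ ((P.continuous.comp_continuousOn hu).locallyIntegrableOn hΩ.measurableSet)
        (sw_pd_cont l hφ) hφp
    have i4 : Integrable (fun x => p.eval (u x) * w x * φ x) :=
      sw_int hφ (hw.continuousOn_mul (p.continuous.comp_continuousOn hu) hΩ.isLocallyClosed)
        hφ.1.continuous hφ0
    have e1 : (∫ x, g (u x) * pd l φ x) + ∫ x, g' (u x) * w x * φ x =
        (∫ x, (g (u x) * pd l φ x - P.eval (u x) * pd l φ x)) +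
          ∫ x, (g' (u x) * w x * φ x - p.eval (u x) * w x * φ x) := by
      rw [integral_sub i1 i3, integral_sub i2 i4, h2]
      ring
    rw [e1]
    refine (abs_add_le _ _).trans ?_
    rw [mul_add]
    refine add_le_add ?_ ?_
    · refine (abs_integral_le_integral_abs).trans ?_
      rw [← mul_assoc, hA, ← integral_const_mul]
      refine integral_mono (i1.sub i3).abs (iA.const_mul _) (fun x => ?_)
      simp only
      by_cases hx : x ∈ tsupport φ
      · rw [← sub_mul, abs_mul]
        refine mul_le_mul_of_nonneg_right (hPg _ ?_) (abs_nonneg _)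
        have := (hM x hx).trans (le_abs_self M)
        exact abs_le.1 this
      · simp [hφp x hx]
    · refine (abs_integral_le_integral_abs).trans ?_
      rw [hB, ← integral_const_mul]
      refine integral_mono (i2.sub i4).abs (iB.const_mul _) (fun x => ?_)
      simp only
      by_cases hx : x ∈ tsupport φ
      · rw [mul_assoc, mul_assoc, ← sub_mul, abs_mul]
        refine mul_le_mul_of_nonneg_right ?_ (abs_nonneg _)
        have h3 := (hM x hx).trans (le_abs_self M)
        have := hp (u x) (abs_le.1 h3)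
        rw [abs_sub_comm]
        exact this.le
      · simp [hφ0 x hx]
  have hz : |(∫ x, g (u x) * pd l φ x) + ∫ x, g' (u x) * w x * φ x| ≤ 0 := by
    refine le_of_forall_pos_le_add (fun ε hε => ?_)
    have hD : 0 ≤ |M| * A + B := by positivity
    refine (key (ε / (|M| * A + B + 1)) (by positivity)).trans ?_
    rw [zero_add, div_mul_eq_mul_div, div_le_iff₀ (by positivity)]
    nlinarith
  have := abs_nonpos_iff.1 hz
  linarith

/-- The functions which are constant along `V` are closed under composition. -/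
theorem sw_comp {n : ℕ} {Ω : Set (E n)} (hΩ : IsOpen Ω) (V : Fin n → E n → ℝ) {u : E n → ℝ}
    (hu : InA Ω V u) {g g' : ℝ → ℝ} (hg : ∀ t, HasDerivAt g (g' t) t) (hg' : Continuous g') :
    InA Ω V (fun x => g (u x)) := by
  have hgc : Continuous g := continuous_iff_continuousAt.2 fun t => (hg t).continuousAt
  obtain ⟨cu, w, lw, pw, aw⟩ := hu
  refine ⟨hgc.comp_continuousOn cu, fun l x => g' (u x) * w l x, fun l =>
    (lw l).continuousOn_mul (hg'.comp_continuousOn cu) hΩ.isLocallyClosed,
    fun l => weak_chain hΩ l cu (lw l) (pw l) hg hg', ?_⟩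
  filter_upwards [aw] with x hx
  have : ∑ l, V l x * (g' (u x) * w l x) = g' (u x) * ∑ l, V l x * w l x := by
    rw [Finset.mul_sum]
    exact Finset.sum_congr rfl fun l _ => by ring
  rw [this, hx, mul_zero]

/-- Multiplication with a test function whose gradient vanishes where the function does not. -/
theorem sw_cut {n : ℕ} {Ω : Set (E n)} (hΩ : IsOpen Ω) (V : Fin n → E n → ℝ) {v κ : E n → ℝ}
    (hv : InA Ω V v) (hκ : IsTest Ω κ) (h0 : ∀ x ∈ Ω, v x ≠ 0 → ∀ l, pd l κ x = 0) :
    InA Ω V (fun x => κ x * v x) := by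
  obtain ⟨cv, w, lw, pw, aw⟩ := hv
  have lv : LocallyIntegrableOn v Ω := cv.locallyIntegrableOn hΩ.measurableSet
  refine ⟨hκ.1.continuous.continuousOn.mul cv, fun l x => κ x * w l x + v x * pd l κ x,
    fun l => ?_, fun l φ hφ => ?_, ?_⟩
  · exact ((lw l).continuousOn_mul hκ.1.continuous.continuousOn hΩ.isLocallyClosed).add
      (((pd_smooth l hκ.1).continuous.continuousOn.locallyIntegrableOn
        hΩ.measurableSet).continuousOn_mul cv hΩ.isLocallyClosed)
  · exact localize hΩ l hκ lv (lw l) (pw l) φ ⟨hφ.1, hφ.2.1, subset_univ _⟩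
  · rw [ae_restrict_iff' hΩ.measurableSet] at aw ⊢
    filter_upwards [aw] with x hx hxΩ
    have h1 := hx hxΩ
    have h2 : ∀ l, v x * pd l κ x = 0 := by
      intro l
      by_cases h : v x = 0
      · rw [h, zero_mul]
      · rw [h0 x hxΩ h l, mul_zero]
    have : ∑ l, V l x * (κ x * w l x + v x * pd l κ x) = κ x * ∑ l, V l x * w l x := by
      rw [Finset.mul_sum]
      exact Finset.sum_congr rfl fun l _ => by rw [h2 l]; ring
    rw [this, h1, mul_zero]

end Pool.Agent.KS6_66.LM
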