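import Pool.Graph.R_seed8.Y952.SR.Core
import Pool.Agent.KS6_66.LM.Chain

/-! The core theorem of the library file `Y952.SR.Core` with the density of the algebra of the
functions constant along the vector field as a hypothesis (the proof is that of the library). -/

set_option linter.unusedVariables false
set_option linter.unusedSimpArgs false
set_option autoImplicit false

open MeasureTheory Set Filter Topology Metric
open scoped ENNReal ContDiff Convolution

namespace Pool.Agent.KS6_66.LM

open Pool.Agent.Helper656.Sob hiding dense_InA core contDiff_minor_aux minors_step det_not_ae_zero main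
open Pool.Agent.Y952.SR (rank_not_ae_lt)

theorem core' {n d : ℕ} {Ω : Set (E n)} (hΩ : IsOpen Ω) (f : E n → E d) (hf : ContinuousOn f Ω)
    (hdense : ∀ V : Fin n → E n → ℝ, (∀ i, InA Ω V (fun x => f x i)) → ∀ K : Set (E n),
      IsCompact K → K ⊆ Ω → ∀ φ : E n → ℝ, Continuous φ → ∀ δ : ℝ, 0 < δ →
      ∃ u, InA Ω V u ∧ ∀ x ∈ K, |u x - φ x| ≤ δ)
    (G : E n → Matrix (Fin d) (Fin n) ℝ)
    (hG : ∀ i j, LocallyIntegrableOn (fun x => G x i j) Ω)
    (hGw : ∀ i j, IsWeakDeriv Ω j (fun x => f x i) (fun x => G x i j))
    (hBV : ∀ κ, IsTest Ω κ → ∃ C, ∀ i j l, BVBound univ l (fun x => κ x * G x i j) C)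
    (Ψ : Fin n → (Fin d × Fin n → ℝ) → ℝ) (hΨ : ∀ l, ContDiff ℝ ∞ (Ψ l))
    (hΨc : ∀ l, HasCompactSupport (Ψ l))
    (hker : ∀ i, ∀ᵐ x ∂(volume.restrict Ω),
      ∑ l, Ψ l (fun p => G x p.1 p.2) * G x i l = 0) (m : Fin n) :
    ∀ᵐ x ∂(volume.restrict Ω), Ψ m (fun p => G x p.1 p.2) = 0 := by
  classical
  set gg : E n → Fin d × Fin n → ℝ := fun x p => G x p.1 p.2 with hgg
  set V : Fin n → E n → ℝ := fun l x => Ψ l (gg x) with hV
  have hggm : AEStronglyMeasurable gg (volume.restrict Ω) := by
    apply AEMeasurable.aestronglyMeasurable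
    exact aemeasurable_pi_lambda _ (fun p => (hG p.1 p.2).aestronglyMeasurable.aemeasurable)
  have hVm : ∀ l, AEStronglyMeasurable (V l) (volume.restrict Ω) := fun l =>
    (hΨ l).continuous.comp_aestronglyMeasurable hggm
  have hB : ∃ B, ∀ l z, |Ψ l z| ≤ B := by
    have : ∀ l, ∃ B, ∀ z, |Ψ l z| ≤ B := fun l => by
      obtain ⟨B, hB⟩ := (hΨc l).exists_bound_of_continuous (hΨ l).continuous
      exact ⟨B, fun z => by simpa using hB z⟩
    choose B hB using this
    refine ⟨∑ l, |B l|, fun l z => (hB l z).trans ((le_abs_self _).trans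
      (Finset.single_le_sum (f := fun l => |B l|) (fun _ _ => abs_nonneg _) (Finset.mem_univ l)))⟩
  obtain ⟨B, hB⟩ := hB
  have hVloc : ∀ l, LocallyIntegrableOn (V l) Ω := by
    intro l
    refine locallyIntegrableOn_of_locallyIntegrable_restrict ?_
    refine (locallyIntegrable_const B).mono (hVm l) ?_
    refine Filter.Eventually.of_forall (fun x => ?_)
    simp only [Real.norm_eq_abs]
    exact (hB l _).trans (le_abs_self _)
  have hfi : ∀ i : Fin d, ContinuousOn (fun x => f x i) Ω := fun i =>
    (EuclideanSpace.proj (𝕜 := ℝ) i).continuous.comp_continuousOn hf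
  have hfA : ∀ i, InA Ω V (fun x => f x i) := fun i =>
    ⟨hfi i, fun l x => G x i l, fun l => hG i l, fun l => hGw i l, hker i⟩
  rw [ae_restrict_iff' hΩ.measurableSet]
  refine hΩ.ae_eq_zero_of_integral_contDiff_smul_eq_zero (hVloc m) ?_
  intro θ hθ hθc hθΩ
  have hθT : IsTest Ω θ := ⟨hθ, hθc, hθΩ⟩
  obtain ⟨κ, hκ, hκ1, hκb⟩ := exists_cutoff hΩ hθc hθΩ
  obtain ⟨C0, hC0⟩ := hBV κ hκ
  set g : E n → Fin d × Fin n → ℝ := fun x p => κ x * G x p.1 p.2 with hg
  have hgint : ∀ p, Integrable (fun x => g x p) := fun p =>
    integrable_test_mul hκ.1.continuous hκ.2.1 hκ.2.2 (hG p.1 p.2)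
  have hgm : AEStronglyMeasurable g volume := by
    apply AEMeasurable.aestronglyMeasurable
    exact aemeasurable_pi_lambda _ (fun p => (hgint p).aestronglyMeasurable.aemeasurable)
  have hch : ∀ l, ∃ C', BVBound univ l (fun x => Ψ l (g x)) C' := fun l =>
    chain_bound g hgint l C0 (fun p => hC0 p.1 p.2 l) (Ψ l) (hΨ l) (hΨc l)
  choose C' hC' using hch
  have hWm : ∀ l, AEStronglyMeasurable (fun x => Ψ l (g x)) volume := fun l =>
    (hΨ l).continuous.comp_aestronglyMeasurable hgm
  obtain ⟨T, hT⟩ : ∃ T, ∀ x, |θ x| ≤ T := by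
    obtain ⟨T, hT⟩ := hθc.exists_bound_of_continuous hθ.continuous
    exact ⟨T, fun z => by simpa using hT z⟩
  set D : ℝ := ∑ l, C' l * T + ∑ l, ∫ x, B * |pd l θ x| with hD
  have hpdθc : ∀ l, Continuous (pd l θ) := fun l => (pd_smooth l hθ).continuous
  have hpdθs : ∀ l, HasCompactSupport (pd l θ) := fun l => pd_hasCompactSupport l hθc
  have key : ∀ δ > 0, |∫ x, θ x * V m x| ≤ δ * D := by
    intro δ hδ
    obtain ⟨u, ⟨huc, w, hwl, hww, hwV⟩, huδ⟩ := hdense V hfA _ hθc hθΩ
      (fun x => x m) (EuclideanSpace.proj (𝕜 := ℝ) m).continuous δ hδ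
    set v : E n → ℝ := fun x => x m - u x with hv
    have hvc : ContinuousOn v Ω :=
      ((EuclideanSpace.proj (𝕜 := ℝ) m).continuous.continuousOn).sub huc
    have hpdx : ∀ l (x : E n), pd l (fun y : E n => y m) x = if l = m then 1 else 0 := by
      intro l x
      have : fderiv ℝ (fun y : E n => y m) x = (EuclideanSpace.proj (𝕜 := ℝ) m) :=
        (EuclideanSpace.proj (𝕜 := ℝ) m : E n →L[ℝ] ℝ).fderiv
      simp only [pd, this]
      simp [eq_comm]
    have hxsm : ContDiff ℝ ∞ (fun y : E n => y m) :=
      (EuclideanSpace.proj (𝕜 := ℝ) m : E n →L[ℝ] ℝ).contDiff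
    set wv : Fin n → E n → ℝ := fun l x => (if l = m then 1 else 0) - w l x with hwv
    have hwvl : ∀ l, LocallyIntegrableOn (wv l) Ω := fun l =>
      (locallyIntegrableOn_const _).sub (hwl l)
    have hvweak : ∀ l, IsWeakDeriv Ω l v (wv l) := by
      intro l χ hχ
      have h1 : ∫ x : E n, x m * pd l χ x = - ∫ x, (if l = m then 1 else 0) * χ x := by
        have := integral_pd_mul l (φ := fun y : E n => y m) (ψ := χ) (hxsm.of_le (by simp))
          (hχ.1.of_le (by simp)) hχ.2.1
        rw [this]
        congr 1
        refine integral_congr_ae (Filter.Eventually.of_forall fun x => ?_)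
        simp only [hpdx]; ring
      have h2 := hww l χ hχ
      have hi1 : Integrable (fun x : E n => x m * pd l χ x) := by
        refine Continuous.integrable_of_hasCompactSupport ?_ ?_
        · exact (EuclideanSpace.proj (𝕜 := ℝ) m).continuous.mul (pd_smooth l hχ.1).continuous
        · exact (pd_hasCompactSupport l hχ.2.1).mul_left
      have hi2 : Integrable (fun x : E n => u x * pd l χ x) := by
        have := integrable_test_mul (pd_smooth l hχ.1).continuous (pd_hasCompactSupport l hχ.2.1)
          ((pd_support l χ).trans hχ.2.2) (huc.locallyIntegrableOn (μ := volume) hΩ.measurableSet)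
        exact this.congr (Filter.Eventually.of_forall fun x => mul_comm _ _)
      have hi3 : Integrable (fun x : E n => (if l = m then (1:ℝ) else 0) * χ x) :=
        (hχ.1.continuous.integrable_of_hasCompactSupport hχ.2.1).const_mul _
      have hi4 : Integrable (fun x : E n => w l x * χ x) := by
        have := integrable_test_mul hχ.1.continuous hχ.2.1 hχ.2.2 (hwl l)
        exact this.congr (Filter.Eventually.of_forall fun x => mul_comm _ _)
      have e1 : ∫ x, v x * pd l χ x = (∫ x : E n, x m * pd l χ x) - ∫ x, u x * pd l χ x := by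
        rw [← integral_sub hi1 hi2]
        refine integral_congr_ae (Filter.Eventually.of_forall fun x => ?_)
        simp only [hv]; ring
      have e2 : ∫ x, wv l x * χ x = (∫ x : E n, (if l = m then (1:ℝ) else 0) * χ x) -
          ∫ x, w l x * χ x := by
        rw [← integral_sub hi3 hi4]
        refine integral_congr_ae (Filter.Eventually.of_forall fun x => ?_)
        simp only [hwv]; ring
      rw [e1, e2, h1, h2]; ring
    have hvl : LocallyIntegrableOn v Ω := hvc.locallyIntegrableOn hΩ.measurableSet
    set w' : Fin n → E n → ℝ := fun l x => θ x * wv l x + v x * pd l θ x with hw'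
    have hloc : ∀ l, IsWeakDeriv univ l (fun x => θ x * v x) (w' l) := fun l =>
      localize hΩ l hθT hvl (hwvl l) (hvweak l)
    have hi5 : ∀ l, Integrable (fun x => θ x * wv l x) := fun l =>
      integrable_test_mul hθ.continuous hθc hθΩ (hwvl l)
    have hi6 : ∀ l, Integrable (fun x => v x * pd l θ x) := fun l => by
      have := integrable_test_mul (hpdθc l) (hpdθs l) ((pd_support l θ).trans hθΩ) hvl
      exact this.congr (Filter.Eventually.of_forall fun x => mul_comm _ _)
    have hw'i : ∀ l, Integrable (w' l) := fun l => (hi5 l).add (hi6 l)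
    have hζc : Continuous (fun x => θ x * v x) := by
      rw [continuous_iff_continuousAt]
      intro x
      by_cases hx : x ∈ tsupport θ
      · exact hθ.continuous.continuousAt.mul (hvc.continuousAt (hΩ.mem_nhds (hθΩ hx)))
      · have : (fun x => θ x * v x) =ᶠ[𝓝 x] fun _ => (0:ℝ) := by
          filter_upwards [(isClosed_tsupport θ).isOpen_compl.mem_nhds hx] with y hy
          have : θ y = 0 := image_eq_zero_of_notMem_tsupport hy
          simp [this]
        exact this.continuousAt
    have hζs : HasCompactSupport (fun x => θ x * v x) := hθc.mul_right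
    have hT0 : 0 ≤ T := (abs_nonneg _).trans (hT 0)
    have hζb : ∀ x, |θ x * v x| ≤ δ * T := by
      intro x
      by_cases hx : x ∈ tsupport θ
      · rw [abs_mul, mul_comm]
        refine mul_le_mul ?_ (hT x) (abs_nonneg _) hδ.le
        rw [hv]; simp only
        rw [abs_sub_comm]; exact huδ x hx
      · have : θ x = 0 := image_eq_zero_of_notMem_tsupport hx
        simp only [this, zero_mul, abs_zero]; positivity
    have hbd : ∀ l, |∫ x, Ψ l (g x) * w' l x| ≤ C' l * (δ * T) := fun l =>
      bound_extend l (fun x => Ψ l (g x)) (hWm l) B (fun x => hB l _) (C' l) (hC' l)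
        _ hζc hζs (w' l) (hw'i l) (hloc l) _ hζb
    have heq : ∀ l x, Ψ l (g x) * w' l x = V l x * w' l x := by
      intro l x
      by_cases hx : x ∈ tsupport θ
      · have h1 : κ x = 1 := hκ1.self_of_nhdsSet x hx
        simp only [hV, hg, hgg, h1, one_mul]
      · have h0 : θ x = 0 := image_eq_zero_of_notMem_tsupport hx
        have h1 : pd l θ x = 0 := image_eq_zero_of_notMem_tsupport (fun h => hx (pd_support l θ h))
        simp [hw', h0, h1]
    -- the pointwise identity
    have hid : ∀ᵐ x, θ x * V m x = (∑ l, V l x * w' l x) - ∑ l, v x * (V l x * pd l θ x) := by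
      have h0 := (ae_restrict_iff' hΩ.measurableSet).1 hwV
      filter_upwards [h0] with x hx
      by_cases hxΩ : x ∈ Ω
      · have hx' := hx hxΩ
        have : ∑ l, V l x * w' l x = θ x * (∑ l, V l x * (if l = m then 1 else 0)) -
            θ x * (∑ l, V l x * w l x) + ∑ l, v x * (V l x * pd l θ x) := by
          rw [Finset.mul_sum, Finset.mul_sum, ← Finset.sum_sub_distrib, ← Finset.sum_add_distrib]
          refine Finset.sum_congr rfl (fun l _ => ?_)
          simp only [hw', hwv]; ring
        rw [this, hx']
        simp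
      · have h0 : θ x = 0 := image_eq_zero_of_notMem_tsupport (fun h => hxΩ (hθΩ h))
        have h1 : ∀ l, pd l θ x = 0 := fun l =>
          image_eq_zero_of_notMem_tsupport (fun h => hxΩ (hθΩ (pd_support l θ h)))
        simp [hw', h0, h1]
    have hVw : ∀ l, Integrable (fun x => V l x * w' l x) := by
      intro l
      have : Integrable (fun x => Ψ l (g x) * w' l x) :=
        (hw'i l).bdd_mul (hWm l) (Filter.Eventually.of_forall fun x => by simpa using hB l (g x))
      exact this.congr (Filter.Eventually.of_forall fun x => heq l x)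
    have heq2 : ∀ l x, v x * (Ψ l (g x) * pd l θ x) = v x * (V l x * pd l θ x) := by
      intro l x
      by_cases hx : x ∈ tsupport θ
      · have h1 : κ x = 1 := hκ1.self_of_nhdsSet x hx
        simp only [hV, hg, hgg, h1, one_mul]
      · have h1 : pd l θ x = 0 := image_eq_zero_of_notMem_tsupport (fun h => hx (pd_support l θ h))
        simp [h1]
    have hVp : ∀ l, Integrable (fun x => v x * (V l x * pd l θ x)) := by
      intro l
      have : Integrable (fun x => Ψ l (g x) * (v x * pd l θ x)) :=
        (hi6 l).bdd_mul (hWm l) (Filter.Eventually.of_forall fun x => by simpa using hB l (g x))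
      refine this.congr (Filter.Eventually.of_forall fun x => ?_)
      simp only
      rw [← heq2 l x]; ring
    have hint : ∫ x, θ x * V m x = (∑ l, ∫ x, V l x * w' l x) -
        ∑ l, ∫ x, v x * (V l x * pd l θ x) := by
      rw [integral_congr_ae hid, integral_sub (integrable_finsetSum _ fun l _ => hVw l)
        (integrable_finsetSum _ fun l _ => hVp l), integral_finsetSum _ (fun l _ => hVw l),
        integral_finsetSum _ (fun l _ => hVp l)]
    have hb1 : |∑ l, ∫ x, V l x * w' l x| ≤ δ * ∑ l, C' l * T := by
      refine (Finset.abs_sum_le_sum_abs _ _).trans ?_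
      rw [Finset.mul_sum]
      refine Finset.sum_le_sum fun l _ => ?_
      have : ∫ x, V l x * w' l x = ∫ x, Ψ l (g x) * w' l x :=
        integral_congr_ae (Filter.Eventually.of_forall fun x => (heq l x).symm)
      rw [this]
      refine (hbd l).trans (le_of_eq (by ring))
    have hb2 : |∑ l, ∫ x, v x * (V l x * pd l θ x)| ≤ δ * ∑ l, ∫ x, B * |pd l θ x| := by
      refine (Finset.abs_sum_le_sum_abs _ _).trans ?_
      rw [Finset.mul_sum]
      refine Finset.sum_le_sum fun l _ => ?_
      rw [← integral_const_mul]
      refine (abs_integral_le_integral_abs).trans ?_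
      refine integral_mono (hVp l).abs ?_ ?_
      · exact (((hpdθc l).integrable_of_hasCompactSupport (hpdθs l)).abs.const_mul B).const_mul δ
      · intro x
        simp only
        by_cases hx : x ∈ tsupport θ
        · rw [abs_mul, abs_mul]
          have h1 : |v x| ≤ δ := by
            rw [hv]; simp only
            rw [abs_sub_comm]; exact huδ x hx
          have h2 : |V l x| ≤ B := hB l _
          have h3 : 0 ≤ B := (abs_nonneg _).trans h2
          gcongr
        · have h1 : pd l θ x = 0 :=
            image_eq_zero_of_notMem_tsupport (fun h => hx (pd_support l θ h))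
          simp [h1]
    rw [hint, hD, mul_add]
    exact (abs_sub _ _).trans (add_le_add hb1 hb2)
  have hD0 : 0 ≤ D := by
    have := key 1 one_pos
    have h2 := abs_nonneg (∫ x, θ x * V m x)
    linarith
  have hz : |∫ x, θ x * V m x| ≤ 0 := by
    refine le_of_forall_pos_le_add (fun ε hε => ?_)
    have := key (ε / (D + 1)) (by positivity)
    refine this.trans ?_
    rw [zero_add, div_mul_eq_mul_div, div_le_iff₀ (by positivity)]
    nlinarith
  simpa using hz

end Pool.Agent.KS6_66.LM
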