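import Pool.Agent.KS6_66.LM.Sep
import Pool.Agent.KS6_66.LM.Core
import Pool.Graph.R_seed8.Results.MP_941809_an.RankOfEmbeddings

/-! Rank of the differential of light maps of second order; stacking with smooth maps. -/

set_option autoImplicit false
set_option maxHeartbeats 1000000

open MeasureTheory Set Filter Topology Metric
open scoped ENNReal ContDiff

namespace Pool.Agent.KS6_66.LM

open Pool.Agent.Helper656.Sob
open Pool.Agent.Results.MP_941809_an.RankOfEmbeddings (IsWBVLoc cutoff)

/-- Light maps of the local class have full rank on a set of positive measure. -/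
theorem rank_pos_light {n d : ℕ} {Ω : Set (E n)} (hΩ : IsOpen Ω) (hne : Ω.Nonempty)
    (f : E n → E d) (hf : ContinuousOn f Ω) (hl : Light Ω f)
    (G : E n → Matrix (Fin d) (Fin n) ℝ) (hW : IsWBVLoc Ω f G) :
    0 < volume {x | x ∈ Ω ∧ (G x).rank = n} := by
  by_contra hcon
  have h0 : volume {x | x ∈ Ω ∧ (G x).rank = n} = 0 := by
    simpa using hcon
  have hBV : ∀ κ, IsTest Ω κ → ∃ C, ∀ i j l, BVBound univ l (fun x => κ x * G x i j) C := by
    intro κ hκ
    have hex : ∀ i j l, ∃ C, 0 ≤ C ∧ BVBound univ l (fun x => κ x * G x i j) C :=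
      fun i j l => cutoff hW hκ i j l
    choose C hC0 hC using hex
    refine ⟨∑ i, ∑ j, ∑ l, C i j l, ?_⟩
    intro i j l φ M hφ hM
    have hM0 : 0 ≤ M := (abs_nonneg _).trans (hM 0)
    refine (hC i j l φ M hφ hM).trans (mul_le_mul_of_nonneg_right ?_ hM0)
    calc C i j l ≤ ∑ l, C i j l :=
          Finset.single_le_sum (f := fun l => C i j l) (fun l _ => hC0 i j l) (Finset.mem_univ l)
      _ ≤ ∑ j, ∑ l, C i j l :=
          Finset.single_le_sum (f := fun j => ∑ l, C i j l)
            (fun j _ => Finset.sum_nonneg fun l _ => hC0 i j l) (Finset.mem_univ j)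
      _ ≤ ∑ i, ∑ j, ∑ l, C i j l :=
          Finset.single_le_sum (f := fun i => ∑ j, ∑ l, C i j l)
            (fun i _ => Finset.sum_nonneg fun j _ => Finset.sum_nonneg fun l _ => hC0 i j l)
            (Finset.mem_univ i)
  refine Y952.SR.rank_not_ae_lt hΩ hne G
    (fun Ψ h1 h2 h3 m => core' hΩ f hf (fun V hV K hK hKΩ φ hφ δ hδ =>
      dense_light hΩ hf hl V hV K hK hKΩ φ hφ δ hδ) G hW.G_loc hW.G_weak hBV Ψ h1 h2 h3 m) ?_
  rw [ae_restrict_iff' hΩ.measurableSet, ae_iff]
  refine measure_mono_null ?_ h0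
  intro x hx
  simp only [mem_ofPred_eq, Classical.not_imp, not_lt] at hx
  refine ⟨hx.1, le_antisymm ?_ hx.2⟩
  have := (G x).rank_le_width
  simpa using this

/-! ### Smooth maps are in the class -/

/-- The differential of a smooth map. -/
noncomputable def jac {n m : ℕ} (g : E n → E m) (x : E n) : Matrix (Fin m) (Fin n) ℝ :=
  Matrix.of fun i j => pd j (fun y => g y i) x

theorem smooth_coord {n m : ℕ} {g : E n → E m} (hg : ContDiff ℝ ∞ g) (i : Fin m) :
    ContDiff ℝ ∞ (fun y => g y i) :=
  (EuclideanSpace.proj (𝕜 := ℝ) i : E m →L[ℝ] ℝ).contDiff.comp hg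

theorem smooth_class {n m : ℕ} (Ω : Set (E n)) {g : E n → E m} (hg : ContDiff ℝ ∞ g) :
    IsWBVLoc Ω g (jac g) where
  G_loc i j := by
    have h : Continuous (pd j (fun y => g y i)) := (pd_smooth j (smooth_coord hg i)).continuous
    exact (h.locallyIntegrable (μ := volume)).locallyIntegrableOn _
  G_weak i j φ hφ := by
    have h := integral_pd_mul j (φ := fun y => g y i) (ψ := φ)
      ((smooth_coord hg i).of_le (by simp)) (hφ.1.of_le (by simp)) hφ.2.1
    rw [h]
    congr 1
    exact integral_congr_ae (Filter.Eventually.of_forall fun x => mul_comm _ _)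
  second K hK hKΩ i j l := by
    have hs : ContDiff ℝ ∞ (pd j (fun y => g y i)) := pd_smooth j (smooth_coord hg i)
    have hc : Continuous (pd l (pd j (fun y => g y i))) := (pd_smooth l hs).continuous
    refine ⟨∫ x in K, |pd l (pd j (fun y => g y i)) x|, fun φ M hφ hsup hM => ?_⟩
    have hM0 : 0 ≤ M := (abs_nonneg _).trans (hM 0)
    have h := integral_pd_mul l (φ := pd j (fun y => g y i)) (ψ := φ) (hs.of_le (by simp))
      (hφ.1.of_le (by simp)) hφ.2.1
    have e0 : ∫ x, jac g x i j * pd l φ x = ∫ x, pd j (fun y => g y i) x * pd l φ x := rfl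
    rw [e0, h, abs_neg]
    have e1 : ∫ x, φ x * pd l (pd j (fun y => g y i)) x =
        ∫ x in K, φ x * pd l (pd j (fun y => g y i)) x := by
      rw [setIntegral_eq_integral_of_forall_compl_eq_zero]
      intro x hx
      rw [image_eq_zero_of_notMem_tsupport (fun hx' => hx (hsup hx')), zero_mul]
    rw [e1]
    refine (abs_integral_le_integral_abs).trans ?_
    rw [← integral_mul_const]
    refine integral_mono_of_nonneg (Filter.Eventually.of_forall fun x => abs_nonneg _)
      ((hc.continuousOn.integrableOn_compact hK).abs.mul_const M)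
      (Filter.Eventually.of_forall fun x => ?_)
    simp only
    rw [abs_mul, mul_comm]
    exact mul_le_mul_of_nonneg_left (hM x) (abs_nonneg _)

/-! ### Stacking -/

/-- The map `(f, g)`. -/
noncomputable def stack {n d m : ℕ} (f : E n → E d) (g : E n → E m) (x : E n) : E (d + m) :=
  WithLp.toLp 2 (Fin.append (fun i => f x i) (fun i => g x i))

theorem stack_left {n d m : ℕ} (f : E n → E d) (g : E n → E m) (x : E n) (i : Fin d) :
    stack f g x (Fin.castAdd m i) = f x i := by
  unfold stack
  simp

theorem stack_right {n d m : ℕ} (f : E n → E d) (g : E n → E m) (x : E n) (i : Fin m) :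
    stack f g x (Fin.natAdd d i) = g x i := by
  unfold stack
  simp

/-- The differential of `(f, g)`. -/
def stackG {n d m : ℕ} (G : E n → Matrix (Fin d) (Fin n) ℝ) (H : E n → Matrix (Fin m) (Fin n) ℝ)
    (x : E n) : Matrix (Fin (d + m)) (Fin n) ℝ :=
  Matrix.of (Fin.append (fun i => G x i) (fun i => H x i))

theorem stackG_left {n d m : ℕ} (G : E n → Matrix (Fin d) (Fin n) ℝ)
    (H : E n → Matrix (Fin m) (Fin n) ℝ) (x : E n) (i : Fin d) (j : Fin n) :
    stackG G H x (Fin.castAdd m i) j = G x i j := by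
  unfold stackG
  simp

theorem stackG_right {n d m : ℕ} (G : E n → Matrix (Fin d) (Fin n) ℝ)
    (H : E n → Matrix (Fin m) (Fin n) ℝ) (x : E n) (i : Fin m) (j : Fin n) :
    stackG G H x (Fin.natAdd d i) j = H x i j := by
  unfold stackG
  simp

theorem stack_class {n d m : ℕ} {Ω : Set (E n)} {f : E n → E d} {g : E n → E m}
    {G : E n → Matrix (Fin d) (Fin n) ℝ} {H : E n → Matrix (Fin m) (Fin n) ℝ}
    (hf : IsWBVLoc Ω f G) (hg : IsWBVLoc Ω g H) : IsWBVLoc Ω (stack f g) (stackG G H) where
  G_loc i j := by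
    refine Fin.addCases (fun i => ?_) (fun i => ?_) i
    · simp only [stackG_left]; exact hf.G_loc i j
    · simp only [stackG_right]; exact hg.G_loc i j
  G_weak i j := by
    refine Fin.addCases (fun i => ?_) (fun i => ?_) i
    · simp only [stackG_left, stack_left]; exact hf.G_weak i j
    · simp only [stackG_right, stack_right]; exact hg.G_weak i j
  second K hK hKΩ i j l := by
    refine Fin.addCases (fun i => ?_) (fun i => ?_) i
    · simp only [stackG_left]; exact hf.second K hK hKΩ i j l
    · simp only [stackG_right]; exact hg.second K hK hKΩ i j l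

theorem stack_continuous {n d m : ℕ} {Ω : Set (E n)} {f : E n → E d} {g : E n → E m}
    (hf : ContinuousOn f Ω) (hg : ContinuousOn g Ω) : ContinuousOn (stack f g) Ω := by
  have h : ContinuousOn (fun x => (Fin.append (fun i => f x i) (fun i => g x i) :
      Fin (d + m) → ℝ)) Ω := by
    refine continuousOn_pi.2 fun i => ?_
    refine Fin.addCases (fun i => ?_) (fun i => ?_) i
    · simp only [Fin.append_left]
      exact (EuclideanSpace.proj (𝕜 := ℝ) i).continuous.comp_continuousOn hf
    · simp only [Fin.append_right]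
      exact (EuclideanSpace.proj (𝕜 := ℝ) i).continuous.comp_continuousOn hg
  exact (PiLp.continuous_toLp 2 _).comp_continuousOn h

theorem stackG_rank {n d m : ℕ} (G : E n → Matrix (Fin d) (Fin n) ℝ)
    (H : E n → Matrix (Fin m) (Fin n) ℝ) (x : E n) :
    (stackG G H x).rank ≤ (G x).rank + m := by
  -- the row space is the sum of the row spaces
  have h1 : (stackG G H x).rank =
      Module.finrank ℝ (Submodule.span ℝ (range (stackG G H x).row)) :=
    Matrix.rank_eq_finrank_span_row _
  have h2 : (G x).rank = Module.finrank ℝ (Submodule.span ℝ (range (G x).row)) :=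
    Matrix.rank_eq_finrank_span_row _
  have h3 : Module.finrank ℝ (Submodule.span ℝ (range (H x).row)) ≤ m := by
    rw [← Matrix.rank_eq_finrank_span_row]
    simpa using (H x).rank_le_height
  have h4 : Submodule.span ℝ (range (stackG G H x).row) ≤
      Submodule.span ℝ (range (G x).row) ⊔ Submodule.span ℝ (range (H x).row) := by
    rw [Submodule.span_le]
    rintro _ ⟨i, rfl⟩
    refine Fin.addCases (fun i => ?_) (fun i => ?_) i
    · have e : (stackG G H x).row (Fin.castAdd m i) = (G x).row i := by
        funext j; exact stackG_left G H x i j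
      rw [e]
      exact Submodule.mem_sup_left (Submodule.subset_span ⟨i, rfl⟩)
    · have e : (stackG G H x).row (Fin.natAdd d i) = (H x).row i := by
        funext j; exact stackG_right G H x i j
      rw [e]
      exact Submodule.mem_sup_right (Submodule.subset_span ⟨i, rfl⟩)
  rw [h1, h2]
  refine (Submodule.finrank_mono h4).trans ?_
  refine (Submodule.finrank_add_le_finrank_add_finrank _ _).trans ?_
  omega

/-- The main structure theorem. -/
theorem exists_continuum {n d m k : ℕ} {U : Set (E n)} (hU : IsOpen U) (hne : U.Nonempty)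
    {f : E n → E d} (hf : ContinuousOn f U) {G : E n → Matrix (Fin d) (Fin n) ℝ}
    (hW : IsWBVLoc U f G) (hrank : ∀ᵐ x ∂(volume.restrict U), (G x).rank ≤ k) (hkm : k + m < n)
    {g : E n → E m} (hg : ContinuousOn g U) {H : E n → Matrix (Fin m) (Fin n) ℝ}
    (hH : IsWBVLoc U g H) :
    ∃ C : Set (E n), C ⊆ U ∧ IsCompact C ∧ IsConnected C ∧ C.Nontrivial ∧
      (∃ a, ∀ x ∈ C, f x = a) ∧ ∃ b, ∀ x ∈ C, g x = b := by
  by_contra hcon
  have hl : Light U (stack f g) := by
    intro C h1 h2 h3 h4
    obtain ⟨c, hc⟩ := h4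
    by_contra hns
    rw [Set.not_subsingleton_iff] at hns
    obtain ⟨x0, hx0⟩ := h3.nonempty
    refine hcon ⟨C, h1, h2, h3, hns, ⟨f x0, fun x hx => ?_⟩, ⟨g x0, fun x hx => ?_⟩⟩
    · ext i
      rw [← stack_left f g x i, ← stack_left f g x0 i, hc x hx, hc x0 hx0]
    · ext i
      rw [← stack_right f g x i, ← stack_right f g x0 i, hc x hx, hc x0 hx0]
  have h := rank_pos_light hU hne (stack f g) (stack_continuous hf hg) hl
    (stackG G H) (stack_class hW hH)
  have h0 : volume {x | x ∈ U ∧ (stackG G H x).rank = n} = 0 := by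
    rw [ae_restrict_iff' hU.measurableSet, ae_iff] at hrank
    refine measure_mono_null ?_ hrank
    rintro x ⟨hx1, hx2⟩
    simp only [mem_ofPred_eq, Classical.not_imp, not_le]
    refine ⟨hx1, ?_⟩
    have := stackG_rank G H x
    omega
  exact h.ne' h0

theorem light_of_fibres {n d : ℕ} {U : Set (E n)} {f : E n → E d}
    (h : ∀ a, IsTotallyDisconnected {x | x ∈ U ∧ f x = a}) : Light U f := by
  rintro C h1 _ h3 ⟨a, ha⟩
  exact h a C (fun x hx => ⟨h1 hx, ha x hx⟩) h3.isPreconnected

end Pool.Agent.KS6_66.LM
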