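import Pool.Agent.KS6_66.LM.Chain

/-! Separation of points of a fibre without nondegenerate continua. -/

set_option autoImplicit false
set_option maxHeartbeats 400000

open MeasureTheory Set Filter Topology Metric
open scoped ENNReal ContDiff

namespace Pool.Agent.KS6_66.LM

open Pool.Agent.Helper656.Sob

/-- No nondegenerate continuum in `Ω` is contained in a fibre of `f`. -/
def Light {n d : ℕ} (Ω : Set (E n)) (f : E n → E d) : Prop :=
  ∀ C : Set (E n), C ⊆ Ω → IsCompact C → IsConnected C → (∃ c, ∀ x ∈ C, f x = c) →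
    C.Subsingleton

/-- splitting of a compact set without nondegenerate components -/
theorem split_aux {X : Type*} [TopologicalSpace X] [T2Space X] (F : Set X) (hFc : IsCompact F)
    (hF : ∀ C : Set X, C ⊆ F → IsCompact C → IsConnected C → C.Subsingleton) {x : X} (hx : x ∈ F)
    (U : Set X) (hU : IsOpen U) (hxU : x ∈ U) :
    ∃ F1 F2 : Set X, IsCompact F1 ∧ IsCompact F2 ∧ x ∈ F1 ∧ F1 ⊆ U ∧
      (∀ z, z ∈ F1 → z ∉ F2) ∧ ∀ z ∈ F, z ∈ F1 ∨ z ∈ F2 := by
  have : CompactSpace F := isCompact_iff_compactSpace.1 hFc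
  have : TotallyDisconnectedSpace F := by
    refine totallyDisconnectedSpace_iff_connectedComponent_singleton.2 fun a => ?_
    have h1 : IsConnected (Subtype.val '' connectedComponent a : Set X) :=
      isConnected_connectedComponent.image _ continuous_subtype_val.continuousOn
    have h2 : IsCompact (Subtype.val '' connectedComponent a : Set X) :=
      isClosed_connectedComponent.isCompact.image continuous_subtype_val
    have h3 : (Subtype.val '' connectedComponent a : Set X).Subsingleton := by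
      refine hF _ ?_ h2 h1
      rintro _ ⟨b, _, rfl⟩
      exact b.2
    apply Subset.antisymm
    · intro b hb
      rw [mem_singleton_iff]
      exact Subtype.ext (h3 ⟨b, hb, rfl⟩ ⟨a, mem_connectedComponent, rfl⟩)
    · rintro _ rfl
      exact mem_connectedComponent
  obtain ⟨C, hC, hxC, hCU⟩ := compact_exists_isClopen_in_isOpen (X := F) (x := ⟨x, hx⟩)
    (U := Subtype.val ⁻¹' U) (hU.preimage continuous_subtype_val) hxU
  refine ⟨Subtype.val '' C, Subtype.val '' Cᶜ, hC.isClosed.isCompact.image continuous_subtype_val,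
    hC.compl.isClosed.isCompact.image continuous_subtype_val, ⟨⟨x, hx⟩, hxC, rfl⟩, ?_, ?_, ?_⟩
  · rintro _ ⟨a, ha, rfl⟩
    exact hCU ha
  · rintro _ ⟨a, ha, rfl⟩ ⟨b, hb, hab⟩
    have : b = a := Subtype.ext hab
    rw [this] at hb
    exact hb ha
  · intro z hz
    by_cases h : (⟨z, hz⟩ : F) ∈ C
    · exact Or.inl ⟨⟨z, hz⟩, h, rfl⟩
    · exact Or.inr ⟨⟨z, hz⟩, h, rfl⟩

/-- A compact part of a fibre of `f` in a small closed ball splits into two compact parts, one of
which contains the centre and lies in the open ball. -/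
theorem exists_split {n d : ℕ} {Ω : Set (E n)} {f : E n → E d}
    (hf : ContinuousOn f Ω) (hl : Light Ω f) {x : E n} {r : ℝ} (hr : 0 < r)
    (hball : closedBall x r ⊆ Ω) :
    ∃ F1 F2 : Set (E n), IsCompact F1 ∧ IsCompact F2 ∧ x ∈ F1 ∧ F1 ⊆ ball x r ∧
      (∀ z, z ∈ F1 → z ∉ F2) ∧ ∀ z ∈ closedBall x r, f z = f x → z ∈ F1 ∨ z ∈ F2 := by
  have hc : ContinuousOn f (closedBall x r) := hf.mono hball
  have hcl : IsClosed (closedBall x r ∩ f ⁻¹' {f x}) :=
    ContinuousOn.preimage_isClosed_of_isClosed hc isClosed_closedBall isClosed_singleton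
  have hFc : IsCompact (closedBall x r ∩ f ⁻¹' {f x}) :=
    IsCompact.of_isClosed_subset (isCompact_closedBall x r) hcl inter_subset_left
  have hF : ∀ C : Set (E n), C ⊆ closedBall x r ∩ f ⁻¹' {f x} → IsCompact C → IsConnected C →
      C.Subsingleton := fun C h1 h2 h3 =>
    hl C (fun z hz => hball (h1 hz).1) h2 h3 ⟨f x, fun z hz => (h1 hz).2⟩
  have hx : x ∈ closedBall x r ∩ f ⁻¹' {f x} := ⟨mem_closedBall_self hr.le, rfl⟩
  obtain ⟨F1, F2, h1, h2, h3, h4, h5, h6⟩ := split_aux _ hFc hF hx (ball x r) isOpen_ball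
    (mem_ball_self hr)
  exact ⟨F1, F2, h1, h2, h3, h4, h5, fun z hz hfz => h6 z ⟨hz, hfz⟩⟩

/-- a cut-off function around a small clopen part of a fibre -/
theorem exists_fibre_cutoff {n d : ℕ} {Ω : Set (E n)} (hΩ : IsOpen Ω) {f : E n → E d}
    (hf : ContinuousOn f Ω) (hl : Light Ω f) {x y : E n} (hx : x ∈ Ω) (hxy : x ≠ y) :
    ∃ κ : E n → ℝ, IsTest Ω κ ∧ κ x = 1 ∧ κ y = 0 ∧
      ∃ ε : ℝ, 0 < ε ∧ ∀ z ∈ Ω, (∃ l, pd l κ z ≠ 0) → ε ≤ ‖f z - f x‖ := by
  obtain ⟨r0, hr0, hr0Ω⟩ := Metric.isOpen_iff.1 hΩ x hx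
  have hdist : 0 < dist x y := dist_pos.2 hxy
  obtain ⟨r, hr, hr1, hr2⟩ : ∃ r : ℝ, 0 < r ∧ r < r0 ∧ r < dist x y :=
    ⟨min r0 (dist x y) / 2, by positivity, by
      have := min_le_left r0 (dist x y)
      have := lt_min hr0 hdist
      linarith, by
      have := min_le_right r0 (dist x y)
      have := lt_min hr0 hdist
      linarith⟩
  have hball : closedBall x r ⊆ Ω := fun z hz => hr0Ω (by
    rw [mem_closedBall] at hz
    rw [mem_ball]
    linarith)
  obtain ⟨F1, F2, hF1c, hF2c, hx1, hF1b, hdisj, hcover⟩ := exists_split hf hl hr hball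
  have hO : IsOpen (ball x r ∩ F2ᶜ) := isOpen_ball.inter hF2c.isClosed.isOpen_compl
  have hF1O : F1 ⊆ ball x r ∩ F2ᶜ := fun z hz => ⟨hF1b hz, hdisj z hz⟩
  obtain ⟨κ, hκ, hκ1, -⟩ := exists_cutoff hO hF1c hF1O
  have hsupp : tsupport κ ⊆ ball x r ∩ F2ᶜ := hκ.2.2
  have hκΩ : IsTest Ω κ := ⟨hκ.1, hκ.2.1, fun z hz => hball (ball_subset_closedBall (hsupp hz).1)⟩
  have hint : F1 ⊆ interior {z | κ z = 1} := by
    rw [subset_interior_iff_mem_nhdsSet]
    exact hκ1
  have hκx : x ∈ {z | κ z = 1} := interior_subset (hint hx1)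
  refine ⟨κ, hκΩ, hκx, ?_, ?_⟩
  · apply image_eq_zero_of_notMem_tsupport
    intro hy
    have := (hsupp hy).1
    rw [mem_ball, dist_comm] at this
    linarith
  · obtain ⟨S, hS⟩ : ∃ S : Set (E n), S = tsupport κ \ interior {z | κ z = 1} := ⟨_, rfl⟩
    have hSc : IsCompact S := by
      rw [hS]; exact (hκ.2.1 : IsCompact (tsupport κ)).diff isOpen_interior
    have hS1 : ∀ z ∈ S, z ∈ tsupport κ := by rw [hS]; exact fun z hz => hz.1
    have hS2 : ∀ z ∈ S, z ∉ interior {z | κ z = 1} := by rw [hS]; exact fun z hz => hz.2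
    have hSi : ∀ z, z ∈ tsupport κ → z ∉ interior {z | κ z = 1} → z ∈ S := by
      rw [hS]; exact fun z h1 h2 => ⟨h1, h2⟩
    clear hS
    have hSΩ : S ⊆ Ω := fun z hz => hκΩ.2.2 (hS1 z hz)
    have hpos : ∀ z ∈ S, 0 < ‖f z - f x‖ := by
      intro z hz
      rw [norm_pos_iff, sub_ne_zero]
      intro heq
      rcases hcover z (ball_subset_closedBall (hsupp (hS1 z hz)).1) heq with h | h
      · exact hS2 z hz (hint h)
      · exact (hsupp (hS1 z hz)).2 h
    have hgrad : ∀ z, (∃ l, pd l κ z ≠ 0) → z ∈ S := by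
      rintro z ⟨l, hl⟩
      refine hSi z ?_ ?_
      · by_contra hcon
        exact hl (sw_pd_zero l hκΩ z hcon)
      · intro hz
        apply hl
        have h1 : κ =ᶠ[𝓝 z] fun _ => (1 : ℝ) := by
          filter_upwards [mem_interior_iff_mem_nhds.1 hz] with w hw using hw
        have h2 : fderiv ℝ κ z = 0 := by
          rw [h1.fderiv_eq]
          simp
        unfold pd
        rw [h2]
        rfl
    rcases S.eq_empty_or_nonempty with hSe | hSne
    · refine ⟨1, one_pos, fun z _ hz => ?_⟩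
      have := hgrad z hz
      rw [hSe] at this
      exact absurd this (notMem_empty z)
    · have hcont : ContinuousOn (fun z => ‖f z - f x‖) S :=
        ((hf.mono hSΩ).sub continuousOn_const).norm
      obtain ⟨z0, hz0, hmin⟩ := hSc.exists_isMinOn hSne hcont
      exact ⟨‖f z0 - f x‖, hpos z0 hz0, fun z _ hz => hmin (hgrad z hz)⟩

/-- The functions constant along `V` separate points. -/
theorem separates {n d : ℕ} {Ω : Set (E n)} (hΩ : IsOpen Ω) {f : E n → E d}
    (hf : ContinuousOn f Ω) (hl : Light Ω f) (V : Fin n → E n → ℝ)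
    (hfA : ∀ i, InA Ω V (fun x => f x i)) {x y : E n} (hx : x ∈ Ω) (hxy : x ≠ y) :
    ∃ u, InA Ω V u ∧ u x ≠ u y := by
  obtain ⟨κ, hκ, hκx, hκy, ε, hε, hgrad⟩ := exists_fibre_cutoff hΩ hf hl hx hxy
  -- the squared distance to `f x` in the target
  have hq : InA Ω V (fun z => ∑ i, (f z i - f x i) * (f z i - f x i)) := by
    have : ∀ s : Finset (Fin d), InA Ω V (fun z => ∑ i ∈ s, (f z i - f x i) * (f z i - f x i)) := by
      intro s
      classical
      induction s using Finset.induction_on with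
      | empty => simpa using sw_const V 0
      | insert i s hi ih =>
        simp only [Finset.sum_insert hi]
        have h1 : InA Ω V (fun z => f z i - f x i) := by
          have := sw_add hΩ V (hfA i) (sw_const V (-(f x i)))
          simpa [sub_eq_add_neg] using this
        exact sw_add hΩ V (sw_mul hΩ V h1 h1) ih
    exact this Finset.univ
  have hqn : ∀ z, ∑ i, (f z i - f x i) * (f z i - f x i) = ‖f z - f x‖ ^ 2 := by
    intro z
    rw [EuclideanSpace.norm_sq_eq]
    refine Finset.sum_congr rfl fun i _ => ?_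
    rw [Real.norm_eq_abs, sq_abs]
    simp [sq]
  obtain ⟨g, hgdef⟩ : ∃ g : ℝ → ℝ, g = fun t => Real.smoothTransition (1 - t / ε ^ 2) := ⟨_, rfl⟩
  have hgs : ContDiff ℝ ∞ g := by
    rw [hgdef]
    exact Real.smoothTransition.contDiff.comp (contDiff_const.sub (contDiff_id.div_const _))
  have hg0 : g 0 = 1 := by rw [hgdef]; simp
  have hg1 : ∀ t, ε ^ 2 ≤ t → g t = 0 := by
    intro t ht
    rw [hgdef]
    apply Real.smoothTransition.zero_of_nonpos
    have : 1 ≤ t / ε ^ 2 := by rw [le_div_iff₀ (by positivity)]; linarith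
    linarith
  have hv : InA Ω V (fun z => g (∑ i, (f z i - f x i) * (f z i - f x i))) :=
    sw_comp hΩ V hq (g' := deriv g)
      (fun t => (hgs.differentiable (by simp) t).hasDerivAt)
      (hgs.continuous_deriv (by simp))
  have hcut : InA Ω V (fun z => κ z * g (∑ i, (f z i - f x i) * (f z i - f x i))) := by
    refine sw_cut hΩ V hv hκ fun z hz hne l => ?_
    by_contra hcon
    apply hne
    have h1 := hgrad z hz ⟨l, hcon⟩
    simp only
    rw [hqn]
    exact hg1 _ (by nlinarith)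
  refine ⟨_, hcut, ?_⟩
  simp only
  rw [hκx, hκy, hqn x]
  simp [hg0]

theorem dense_light {n d : ℕ} {Ω : Set (E n)} (hΩ : IsOpen Ω) {f : E n → E d}
    (hf : ContinuousOn f Ω) (hl : Light Ω f) (V : Fin n → E n → ℝ)
    (hfA : ∀ i, InA Ω V (fun x => f x i)) (K : Set (E n)) (hK : IsCompact K) (hKΩ : K ⊆ Ω)
    (φ : E n → ℝ) (hφ : Continuous φ) (δ : ℝ) (hδ : 0 < δ) :
    ∃ u, InA Ω V u ∧ ∀ x ∈ K, |u x - φ x| ≤ δ := by
  have : CompactSpace K := isCompact_iff_compactSpace.mp hK
  let A : Subalgebra ℝ C(K, ℝ) :=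
    { carrier := {g | ∃ u, InA Ω V u ∧ ∀ x : K, g x = u x}
      mul_mem' := by
        rintro g h ⟨u, hu, eu⟩ ⟨v, hv, ev⟩
        exact ⟨_, sw_mul hΩ V hu hv, fun x => by
          show g x * h x = u x * v x
          rw [eu, ev]⟩
      add_mem' := by
        rintro g h ⟨u, hu, eu⟩ ⟨v, hv, ev⟩
        exact ⟨_, sw_add hΩ V hu hv, fun x => by
          show g x + h x = u x + v x
          rw [eu, ev]⟩
      algebraMap_mem' := fun c => ⟨_, sw_const V c, fun x => rfl⟩ }
  have hsep : A.SeparatesPoints := by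
    intro x y hxy
    obtain ⟨u, hu, hne⟩ := separates hΩ hf hl V hfA (hKΩ x.2)
      (fun h => hxy (Subtype.ext h))
    have hc : Continuous (fun z : K => u z) :=
      continuousOn_iff_continuous_domRestrict.1 (hu.1.mono hKΩ)
    refine ⟨fun z : K => u z, ⟨⟨fun z : K => u z, hc⟩, ?_, rfl⟩, hne⟩
    exact ⟨_, hu, fun z => rfl⟩
  obtain ⟨g, hg⟩ := ContinuousMap.exists_mem_subalgebra_near_continuous_of_separatesPoints A hsep
    (fun x : K => φ x) (hφ.comp continuous_subtype_val) δ hδ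
  obtain ⟨u, hu, eu⟩ := g.2
  refine ⟨u, hu, fun x hx => ?_⟩
  have h1 := hg ⟨x, hx⟩
  have h2 := eu ⟨x, hx⟩
  have h3 : ((g : C(K, ℝ)) : K → ℝ) ⟨x, hx⟩ = u x := h2
  rw [← h3]
  exact h1.le

end Pool.Agent.KS6_66.LM
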